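import Mathlib

/-!
# Finite-sum core of the conditional basis with Property (A)

Weights: `w k = √(k+1) - √k`, `c n = 1/√n`.  For a sequence `z`, a finite set `B` with `n`
elements and `N : ℕ` put
`F B N z = c n * ∑_{b ∈ B} ‖z b‖ + (1/2) * ‖∑_{j < N, j ∉ B} w (n + j) * z j‖`.
-/

open Finset

namespace Pool.Agent.N633.PA

/-- increments of the square root -/
noncomputable def w (k : ℕ) : ℝ := Real.sqrt (k + 1 : ℕ) - Real.sqrt (k : ℕ)

/-- `1/√n` -/
noncomputable def c (n : ℕ) : ℝ := (Real.sqrt (n : ℕ))⁻¹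

lemma w_eq (k : ℕ) : w k = 1 / (Real.sqrt (k + 1 : ℕ) + Real.sqrt (k : ℕ)) := by
  have h1 : 0 < Real.sqrt (k + 1 : ℕ) := Real.sqrt_pos.2 (by positivity)
  have h2 : 0 ≤ Real.sqrt (k : ℕ) := Real.sqrt_nonneg _
  have h3 : Real.sqrt (k + 1 : ℕ) * Real.sqrt (k + 1 : ℕ) = (k + 1 : ℕ) :=
    Real.mul_self_sqrt (by positivity)
  have h4 : Real.sqrt (k : ℕ) * Real.sqrt (k : ℕ) = (k : ℕ) :=
    Real.mul_self_sqrt (by positivity)
  have h5 : (0:ℝ) < Real.sqrt (k + 1 : ℕ) + Real.sqrt (k : ℕ) := by linarith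
  rw [eq_div_iff h5.ne', w]
  have h6 : ((k + 1 : ℕ) : ℝ) = (k : ℕ) + 1 := by push_cast; ring
  nlinarith [h3, h4, h6]

lemma w_pos (k : ℕ) : 0 < w k := by
  unfold w
  have : Real.sqrt (k : ℕ) < Real.sqrt (k + 1 : ℕ) :=
    Real.sqrt_lt_sqrt (by positivity) (by exact_mod_cast Nat.lt_succ_self k)
  linarith

lemma w_anti : Antitone w := by
  intro a b hab
  rw [w_eq, w_eq]
  have h1 : Real.sqrt (a + 1 : ℕ) ≤ Real.sqrt (b + 1 : ℕ) :=
    Real.sqrt_le_sqrt (by exact_mod_cast Nat.succ_le_succ hab)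
  have h2 : Real.sqrt (a : ℕ) ≤ Real.sqrt (b : ℕ) :=
    Real.sqrt_le_sqrt (by exact_mod_cast hab)
  have h3 : 0 < Real.sqrt (a + 1 : ℕ) := Real.sqrt_pos.2 (by positivity)
  have h4 : 0 ≤ Real.sqrt (a : ℕ) := Real.sqrt_nonneg _
  exact one_div_le_one_div_of_le (by linarith) (by linarith)

lemma sum_w (n m : ℕ) : ∑ i ∈ range m, w (n + i) = Real.sqrt (n + m : ℕ) - Real.sqrt (n : ℕ) := by
  induction m with
  | zero => simp
  | succ m ih =>
    rw [sum_range_succ, ih, w]
    have : n + m + 1 = n + (m + 1) := by ring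
    rw [this]; ring

lemma c_nonneg (n : ℕ) : 0 ≤ c n := by unfold c; positivity

lemma c_mul (n : ℕ) : c n * (n : ℝ) = Real.sqrt (n : ℕ) := by
  unfold c
  rcases Nat.eq_zero_or_pos n with rfl | hn
  · simp
  · have h1 : 0 < Real.sqrt (n : ℕ) := Real.sqrt_pos.2 (by exact_mod_cast hn)
    rw [inv_mul_eq_div, div_eq_iff h1.ne']
    exact (Real.mul_self_sqrt (by positivity)).symm

lemma c_anti {n m : ℕ} (hn : 0 < n) (h : n ≤ m) : c m ≤ c n := by
  unfold c
  have h1 : 0 < Real.sqrt (n : ℕ) := Real.sqrt_pos.2 (by exact_mod_cast hn)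
  have h2 : Real.sqrt (n : ℕ) ≤ Real.sqrt (m : ℕ) := Real.sqrt_le_sqrt (by exact_mod_cast h)
  exact inv_anti₀ h1 h2

/-- a nonincreasing sequence summed over a finite set is at most its initial sum -/
lemma sum_le_sum_range {a : ℕ → ℝ} (ha : Antitone a) (B : Finset ℕ) :
    ∑ b ∈ B, a b ≤ ∑ i ∈ range B.card, a i := by
  induction B using Finset.induction_on_max with
  | empty => simp
  | insert m B hm ih =>
    have hmB : m ∉ B := fun h => lt_irrefl _ (hm m h)
    rw [sum_insert hmB, card_insert_of_notMem hmB, sum_range_succ]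
    have hsub : B ⊆ range m := fun x hx => mem_range.2 (hm x hx)
    have hcard : B.card ≤ m := by simpa using card_le_card hsub
    have := ha hcard
    linarith

/-- alternating sums -/
lemma alt_sum_bounds (K : ℕ) : ∀ a : ℕ → ℝ, Antitone a → (∀ i, 0 ≤ a i) →
    0 ≤ ∑ j ∈ range K, (-1 : ℝ) ^ j * a j ∧ ∑ j ∈ range K, (-1 : ℝ) ^ j * a j ≤ a 0 := by
  induction K with
  | zero => intro a _ h0; simp [h0 0]
  | succ K ih =>
    intro a ha h0
    have h1 := ih (fun i => a (i + 1)) (fun i j hij => ha (by omega)) (fun i => h0 _)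
    rw [sum_range_succ']
    have h2 : ∑ k ∈ range K, (-1 : ℝ) ^ (k + 1) * a (k + 1)
        = - ∑ k ∈ range K, (-1 : ℝ) ^ k * a (k + 1) := by
      rw [← sum_neg_distrib]
      refine sum_congr rfl fun k _ => ?_
      rw [pow_succ]; ring
    rw [h2]
    have h3 : a (0 + 1) ≤ a 0 := ha (by omega)
    simp only [pow_zero, one_mul]
    constructor <;> linarith [h1.1, h1.2]

variable {𝕜 : Type*} [RCLike 𝕜]

/-- the seminorms -/
noncomputable def F (B : Finset ℕ) (N : ℕ) (z : ℕ → 𝕜) : ℝ :=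
  c B.card * ∑ b ∈ B, ‖z b‖ + (1 / 2) * ‖∑ j ∈ range N \ B, ((w (B.card + j) : ℝ) : 𝕜) * z j‖

lemma F_nonneg (B : Finset ℕ) (N : ℕ) (z : ℕ → 𝕜) : 0 ≤ F B N z := by
  unfold F
  have := c_nonneg B.card
  have h2 : 0 ≤ ∑ b ∈ B, ‖z b‖ := sum_nonneg fun _ _ => norm_nonneg _
  positivity

lemma norm_w_mul (k : ℕ) (x : 𝕜) : ‖((w k : ℝ) : 𝕜) * x‖ = w k * ‖x‖ := by
  rw [norm_mul, RCLike.norm_ofReal, abs_of_pos (w_pos k)]

/-- Key inequality: adding top-level coordinates to `B` does not decrease the seminorm. -/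
lemma F_le_union {B C : Finset ℕ} {N : ℕ} {z : ℕ → 𝕜} (hd : Disjoint B C)
    (hz : ∀ j, ‖z j‖ ≤ 1) (hC : ∀ j ∈ C, ‖z j‖ = 1) : F B N z ≤ F (B ∪ C) N z := by
  classical
  rcases C.eq_empty_or_nonempty with rfl | hCne
  · simp
  set n := B.card with hn
  set m := C.card with hm
  have hmpos : 0 < m := card_pos.2 hCne
  have hcard : (B ∪ C).card = n + m := card_union_of_disjoint hd
  set W : ℝ := Real.sqrt (n + m : ℕ) - Real.sqrt (n : ℕ) with hW
  -- symmetric part
  have hsum : ∑ b ∈ B ∪ C, ‖z b‖ = ∑ b ∈ B, ‖z b‖ + m := by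
    rw [sum_union hd, sum_congr rfl hC]; simp [hm]
  have hSB : ∑ b ∈ B, ‖z b‖ ≤ n := by
    calc ∑ b ∈ B, ‖z b‖ ≤ ∑ b ∈ B, (1:ℝ) := sum_le_sum fun b _ => hz b
      _ = n := by simp [hn]
  have hSB0 : 0 ≤ ∑ b ∈ B, ‖z b‖ := sum_nonneg fun _ _ => norm_nonneg _
  have hsym : c n * ∑ b ∈ B, ‖z b‖ + W ≤ c (n + m) * (∑ b ∈ B, ‖z b‖ + m) := by
    have h1 : c (n + m) * ((n + m : ℕ) : ℝ) = Real.sqrt (n + m : ℕ) := c_mul _
    have h2 : c n * (n : ℝ) = Real.sqrt (n : ℕ) := c_mul _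
    have h3 : (c n - c (n + m)) * ∑ b ∈ B, ‖z b‖ ≤ (c n - c (n + m)) * n := by
      rcases Nat.eq_zero_or_pos n with h0 | h0
      · have hB : B = ∅ := card_eq_zero.1 (by rw [← hn]; exact h0)
        rw [h0, hB]; simp
      · exact mul_le_mul_of_nonneg_left hSB (sub_nonneg.2 (c_anti h0 (by omega)))
    have h4 : ((n + m : ℕ) : ℝ) = n + m := by push_cast; ring
    have h5 : c (n + m) * ((n : ℝ) + m) = Real.sqrt (n + m : ℕ) := by rw [← h4]; exact h1
    rw [hW, ← h5, ← h2]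
    nlinarith [h3]
  -- conditional part
  set S1 : 𝕜 := ∑ j ∈ range N \ B, ((w (n + j) : ℝ) : 𝕜) * z j with hS1
  set S2 : 𝕜 := ∑ j ∈ range N \ (B ∪ C), ((w (n + m + j) : ℝ) : 𝕜) * z j with hS2
  have hsplit : range N \ B = (range N \ (B ∪ C)) ∪ (range N ∩ C) := by
    ext j
    simp only [mem_sdiff, mem_range, mem_union, mem_inter, not_or]
    constructor
    · rintro ⟨h1, h2⟩
      by_cases h3 : j ∈ C
      · exact Or.inr ⟨h1, h3⟩
      · exact Or.inl ⟨h1, h2, h3⟩
    · rintro (⟨h1, h2, _⟩ | ⟨h1, h2⟩)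
      · exact ⟨h1, h2⟩
      · exact ⟨h1, fun h => (disjoint_left.1 hd h) h2⟩
  have hdis : Disjoint (range N \ (B ∪ C)) (range N ∩ C) := by
    rw [disjoint_left]
    intro j h1 h2
    simp only [mem_sdiff, mem_union, mem_inter, not_or] at h1 h2
    exact h1.2.2 h2.2
  have hdiff : ‖S1 - S2‖ ≤ 2 * W := by
    have e1 : S1 - S2 = ∑ j ∈ range N \ (B ∪ C),
        (((w (n + j) - w (n + m + j) : ℝ)) : 𝕜) * z j
        + ∑ j ∈ range N ∩ C, ((w (n + j) : ℝ) : 𝕜) * z j := by
      rw [hS1, hsplit, sum_union hdis, hS2]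
      rw [add_sub_right_comm, ← sum_sub_distrib]
      congr 1
      refine sum_congr rfl fun j _ => ?_
      push_cast; ring
    rw [e1]
    have hle : ∀ j, w (n + m + j) ≤ w (n + j) := fun j => w_anti (by omega)
    have h1 : ‖∑ j ∈ range N \ (B ∪ C), (((w (n + j) - w (n + m + j) : ℝ)) : 𝕜) * z j‖
        ≤ ∑ j ∈ range N \ C, (w (n + j) - w (n + m + j)) := by
      refine (norm_sum_le _ _).trans ?_
      have : ∑ j ∈ range N \ (B ∪ C), ‖(((w (n + j) - w (n + m + j) : ℝ)) : 𝕜) * z j‖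
          ≤ ∑ j ∈ range N \ (B ∪ C), (w (n + j) - w (n + m + j)) := by
        refine sum_le_sum fun j _ => ?_
        rw [norm_mul, RCLike.norm_ofReal, abs_of_nonneg (sub_nonneg.2 (hle j))]
        have := hz j
        nlinarith [sub_nonneg.2 (hle j)]
      refine this.trans (sum_le_sum_of_subset_of_nonneg ?_ fun j _ _ => sub_nonneg.2 (hle j))
      intro j hj
      simp only [mem_sdiff, mem_union, not_or] at hj ⊢
      exact ⟨hj.1, hj.2.2⟩
    have h2 : ‖∑ j ∈ range N ∩ C, ((w (n + j) : ℝ) : 𝕜) * z j‖ ≤ ∑ j ∈ range N ∩ C, w (n + j) := by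
      refine (norm_sum_le _ _).trans (sum_le_sum fun j _ => ?_)
      rw [norm_w_mul]
      have := hz j
      nlinarith [w_pos (n + j)]
    have h3 : ∑ j ∈ range N \ C, (w (n + j) - w (n + m + j)) + ∑ j ∈ range N ∩ C, w (n + j)
        = ∑ j ∈ range N, (w (n + j) - w (n + m + j)) + ∑ j ∈ range N ∩ C, w (n + m + j) := by
      have e2 : ∑ j ∈ range N, (w (n + j) - w (n + m + j))
          = ∑ j ∈ range N \ C, (w (n + j) - w (n + m + j))
            + ∑ j ∈ range N ∩ C, (w (n + j) - w (n + m + j)) := by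
        rw [← sum_union]
        · congr 1
          ext j; simp only [mem_union, mem_sdiff, mem_inter]; tauto
        · rw [disjoint_left]; intro j h1 h2
          simp only [mem_sdiff, mem_inter] at h1 h2
          exact h1.2 h2.2
      rw [e2, sum_sub_distrib (s := range N ∩ C)]
      ring
    have h4 : ∑ j ∈ range N, (w (n + j) - w (n + m + j)) ≤ W := by
      rw [sum_sub_distrib, sum_w, sum_w (n + m) N]
      have e3 : ∑ i ∈ range m, w (n + N + i) = Real.sqrt (n + N + m : ℕ) - Real.sqrt (n + N : ℕ) :=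
        sum_w _ _
      have e4 : 0 ≤ ∑ i ∈ range m, w (n + N + i) := sum_nonneg fun i _ => (w_pos _).le
      have e5 : n + N + m = n + m + N := by ring
      rw [e5] at e3
      rw [hW]; linarith
    have h5 : ∑ j ∈ range N ∩ C, w (n + m + j) ≤ W := by
      have a1 : ∑ j ∈ range N ∩ C, w (n + m + j) ≤ ∑ j ∈ C, w (n + m + j) :=
        sum_le_sum_of_subset_of_nonneg inter_subset_right fun j _ _ => (w_pos _).le
      have a2 : ∑ j ∈ C, w (n + m + j) ≤ ∑ i ∈ range C.card, w (n + m + i) :=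
        sum_le_sum_range (a := fun j => w (n + m + j)) (fun i j hij => w_anti (by omega)) C
      have a3 : ∑ i ∈ range m, w (n + m + i) ≤ ∑ i ∈ range m, w (n + i) :=
        sum_le_sum fun i _ => w_anti (by omega)
      have a4 := sum_w n m
      rw [← hm] at a2
      linarith
    calc _ ≤ ‖∑ j ∈ range N \ (B ∪ C), (((w (n + j) - w (n + m + j) : ℝ)) : 𝕜) * z j‖
          + ‖∑ j ∈ range N ∩ C, ((w (n + j) : ℝ) : 𝕜) * z j‖ := norm_add_le _ _
      _ ≤ 2 * W := by linarith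
  have hnorm : ‖S1‖ ≤ ‖S2‖ + 2 * W := by
    calc ‖S1‖ = ‖S2 + (S1 - S2)‖ := by rw [add_sub_cancel]
      _ ≤ ‖S2‖ + ‖S1 - S2‖ := norm_add_le _ _
      _ ≤ _ := by linarith
  unfold F
  rw [hcard, hsum, ← hn]
  linarith

/-- Invariance under moving the top level. -/
lemma F_swap {A A' B : Finset ℕ} {N : ℕ} {x z z' : ℕ → 𝕜} (hcard : A.card = A'.card)
    (hAA : Disjoint A A') (hx : ∀ j ∈ A ∪ A', x j = 0)
    (hz : ∀ j, j ∉ A → z j = x j) (hzA : ∀ j ∈ A, ‖z j‖ = 1)
    (hz' : ∀ j, j ∉ A' → z' j = x j) (hzA' : ∀ j ∈ A', ‖z' j‖ = 1)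
    (hAB : A ⊆ B) : ∃ B' : Finset ℕ, F B N z = F B' N z' := by
  classical
  -- an involution exchanging A and A'
  obtain ⟨e⟩ : Nonempty (A ≃ A') := ⟨Finset.equivOfCardEq hcard⟩
  let π : ℕ → ℕ := fun j => if h : j ∈ A then (e ⟨j, h⟩ : ℕ) else
    if h' : j ∈ A' then (e.symm ⟨j, h'⟩ : ℕ) else j
  have πA : ∀ j (h : j ∈ A), π j = (e ⟨j, h⟩ : ℕ) := fun j h => by simp [π, h]
  have πA' : ∀ j (h : j ∈ A'), π j = (e.symm ⟨j, h⟩ : ℕ) := fun j h => by
    have h0 : j ∉ A := fun h1 => disjoint_left.1 hAA h1 h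
    simp [π, h, h0]
  have πo : ∀ j, j ∉ A → j ∉ A' → π j = j := fun j h h' => by simp [π, h, h']
  have hinv : ∀ j, π (π j) = j := by
    intro j
    by_cases h : j ∈ A
    · rw [πA j h]
      have : ((e ⟨j, h⟩ : A') : ℕ) ∈ A' := (e ⟨j, h⟩).2
      rw [πA' _ this]; simp
    · by_cases h' : j ∈ A'
      · rw [πA' j h']
        have : ((e.symm ⟨j, h'⟩ : A) : ℕ) ∈ A := (e.symm ⟨j, h'⟩).2
        rw [πA _ this]; simp
      · rw [πo j h h', πo j h h']
  have hinj : Function.Injective π := fun a b hab => by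
    have := congrArg π hab
    rwa [hinv, hinv] at this
  have hmem : ∀ j, j ∈ B.image π ↔ π j ∈ B := by
    intro j
    rw [mem_image]
    constructor
    · rintro ⟨b, hb, rfl⟩; rwa [hinv]
    · intro h; exact ⟨π j, h, hinv j⟩
  have hnormz : ∀ j, ‖z' (π j)‖ = ‖z j‖ := by
    intro j
    by_cases h : j ∈ A
    · rw [hzA j h, πA j h]; exact hzA' _ (e ⟨j, h⟩).2
    · by_cases h' : j ∈ A'
      · have h1 : ((e.symm ⟨j, h'⟩ : A) : ℕ) ∈ A := (e.symm ⟨j, h'⟩).2
        have h2 : ((e.symm ⟨j, h'⟩ : A) : ℕ) ∉ A' := fun h3 => disjoint_left.1 hAA h1 h3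
        rw [πA' j h', hz' _ h2, hx _ (mem_union_left _ h1), hz j h, hx j (mem_union_right _ h')]
      · rw [πo j h h', hz j h, hz' j h']
  refine ⟨B.image π, ?_⟩
  have hc : (B.image π).card = B.card := card_image_of_injective _ hinj
  unfold F
  rw [hc]
  congr 1
  · congr 1
    rw [sum_image fun a _ b _ hab => hinj hab]
    exact sum_congr rfl fun j _ => (hnormz j).symm
  · congr 1
    have key : ∑ j ∈ range N \ B, ((w (B.card + j) : ℝ) : 𝕜) * z j
        = ∑ j ∈ range N \ (B.image π), ((w (B.card + j) : ℝ) : 𝕜) * z' j := by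
      have l1 : ∑ j ∈ range N \ B, ((w (B.card + j) : ℝ) : 𝕜) * z j
          = ∑ j ∈ range N \ (B ∪ A'), ((w (B.card + j) : ℝ) : 𝕜) * x j := by
        symm
        apply sum_subset_zero_on_sdiff
        · intro j hj
          simp only [mem_sdiff, mem_union, not_or] at hj ⊢
          exact ⟨hj.1, hj.2.1⟩
        · intro j hj
          simp only [mem_sdiff, mem_union, not_or, not_and, not_not] at hj
          have h1 : j ∈ A' := hj.2 hj.1.1 hj.1.2
          have h2 : j ∉ A := fun h => disjoint_left.1 hAA h h1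
          rw [hz j h2, hx j (mem_union_right _ h1), mul_zero]
        · intro j hj
          simp only [mem_sdiff, mem_union, not_or] at hj
          have h2 : j ∉ A := fun h => hj.2.1 (hAB h)
          rw [hz j h2]
      have l2 : ∑ j ∈ range N \ (B.image π), ((w (B.card + j) : ℝ) : 𝕜) * z' j
          = ∑ j ∈ range N \ (B ∪ A'), ((w (B.card + j) : ℝ) : 𝕜) * x j := by
        symm
        have hA'sub : ∀ j ∈ A', j ∈ B.image π := by
          intro j hj
          rw [hmem, πA' j hj]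
          exact hAB (e.symm ⟨j, hj⟩).2
        apply sum_subset_zero_on_sdiff
        · intro j hj
          simp only [mem_sdiff, mem_union, not_or] at hj ⊢
          refine ⟨hj.1, fun h => ?_⟩
          rw [hmem] at h
          have h2 : j ∉ A := fun h => hj.2.1 (hAB h)
          rw [πo j h2 hj.2.2] at h
          exact hj.2.1 h
        · intro j hj
          simp only [mem_sdiff, mem_union, not_or, not_and, not_not] at hj
          have h1 : j ∉ A' := fun h => hj.1.2 (hA'sub j h)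
          by_cases hjB : j ∈ B
          · -- then j ∈ A, since otherwise π j = j
            by_cases hjA : j ∈ A
            · rw [hz' j h1, hx j (mem_union_left _ hjA), mul_zero]
            · exfalso
              apply hj.1.2
              rw [hmem, πo j hjA h1]; exact hjB
          · exact absurd (hj.2 hj.1.1 hjB) h1
        · intro j hj
          simp only [mem_sdiff, mem_union, not_or] at hj
          rw [hz' j hj.2.2]
      rw [l1, l2]
    rw [key]

end Pool.Agent.N633.PA
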