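import Mathlib
import Pool.Agent.N633.PA.Core

/-!
# Consequences of the norm formula, in an abstract normed space
-/

open Finset Filter Topology

namespace Pool.Agent.N633.PA

variable {𝕜 : Type*} [RCLike 𝕜] {X : Type*} [NormedAddCommGroup X] [NormedSpace 𝕜 X]

/-- the norm formula together with biorthogonality and density -/
structure Good (vec : ℕ → X) (coord : ℕ → X →L[𝕜] 𝕜) : Prop where
  biorth : ∀ n j, coord n (vec j) = if n = j then 1 else 0
  norm_le_iff : ∀ (x : X) (M : ℝ), 0 ≤ M → (‖x‖ ≤ M ↔ ∀ B N, F B N (fun j => coord j x) ≤ M)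
  near : ∀ (x : X) (ε : ℝ), 0 < ε → ∃ y ∈ Submodule.span 𝕜 (Set.range vec), ‖x - y‖ < ε

namespace Good

variable {vec : ℕ → X} {coord : ℕ → X →L[𝕜] 𝕜} (H : Good vec coord)
include H

lemma F_le_norm (x : X) (B : Finset ℕ) (N : ℕ) : F B N (fun j => coord j x) ≤ ‖x‖ :=
  (H.norm_le_iff x _ (norm_nonneg x)).1 le_rfl B N

lemma total (x : X) (h : ∀ n, coord n x = 0) : x = 0 := by
  have : ‖x‖ ≤ 0 := by
    rw [H.norm_le_iff x 0 le_rfl]
    intro B N
    simp [h, F]
  exact norm_le_zero_iff.1 this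

lemma coord_sum (s : Finset ℕ) (a : ℕ → 𝕜) (k : ℕ) :
    coord k (∑ n ∈ s, a n • vec n) = if k ∈ s then a k else 0 := by
  rw [map_sum]
  simp only [map_smul, H.biorth, smul_eq_mul, mul_ite, mul_one, mul_zero]
  rw [sum_ite_eq]

lemma dense : (Submodule.span 𝕜 (Set.range vec)).topologicalClosure = ⊤ := by
  rw [eq_top_iff]
  intro x _
  change x ∈ closure _
  rw [Metric.mem_closure_iff]
  intro ε hε
  obtain ⟨y, hy, h⟩ := H.near x ε hε
  exact ⟨y, hy, by rwa [dist_eq_norm]⟩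

/-- Property (A), one inequality -/
lemma propA_le (x : X) (A A' : Finset ℕ) (ε η : ℕ → 𝕜) (h1 : ∀ n, ‖coord n x‖ ≤ 1)
    (hc : A.card = A'.card) (hd : Disjoint A A') (h0 : ∀ n ∈ A ∪ A', coord n x = 0)
    (hε : ∀ n ∈ A, ‖ε n‖ = 1) (hη : ∀ n ∈ A', ‖η n‖ = 1) :
    ‖x + ∑ n ∈ A, ε n • vec n‖ ≤ ‖x + ∑ n ∈ A', η n • vec n‖ := by
  classical
  rw [H.norm_le_iff _ _ (norm_nonneg _)]
  intro B N
  set z : ℕ → 𝕜 := fun j => coord j (x + ∑ n ∈ A, ε n • vec n) with hz
  set z' : ℕ → 𝕜 := fun j => coord j (x + ∑ n ∈ A', η n • vec n) with hz'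
  have ez : ∀ j, z j = coord j x + if j ∈ A then ε j else 0 := by
    intro j; rw [hz]; simp only [map_add, H.coord_sum]
  have ez' : ∀ j, z' j = coord j x + if j ∈ A' then η j else 0 := by
    intro j; rw [hz']; simp only [map_add, H.coord_sum]
  have a1 : ∀ j, j ∉ A → z j = coord j x := fun j hj => by rw [ez, if_neg hj, add_zero]
  have a2 : ∀ j ∈ A, ‖z j‖ = 1 := fun j hj => by
    rw [ez, if_pos hj, h0 j (mem_union_left _ hj), zero_add, hε j hj]
  have a3 : ∀ j, j ∉ A' → z' j = coord j x := fun j hj => by rw [ez', if_neg hj, add_zero]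
  have a4 : ∀ j ∈ A', ‖z' j‖ = 1 := fun j hj => by
    rw [ez', if_pos hj, h0 j (mem_union_right _ hj), zero_add, hη j hj]
  have a5 : ∀ j, ‖z j‖ ≤ 1 := fun j => by
    by_cases hj : j ∈ A
    · exact (a2 j hj).le
    · rw [a1 j hj]; exact h1 j
  have s1 : F B N z ≤ F (B ∪ (A \ B)) N z :=
    F_le_union disjoint_sdiff a5 fun j hj => a2 j (Finset.mem_sdiff.1 hj).1
  obtain ⟨B', hB'⟩ := F_swap (B := B ∪ (A \ B)) (N := N) (x := fun j => coord j x) hc hd h0 a1 a2
    a3 a4 (by rw [union_sdiff_self_eq_union]; exact subset_union_right)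
  calc F B N z ≤ F (B ∪ (A \ B)) N z := s1
    _ = F B' N z' := hB'
    _ ≤ _ := H.F_le_norm _ _ _

/-- Property (A) -/
lemma propA (x : X) (A A' : Finset ℕ) (ε η : ℕ → 𝕜) (h1 : ∀ n, ‖coord n x‖ ≤ 1)
    (hc : A.card = A'.card) (hd : Disjoint A A') (h0 : ∀ n ∈ A ∪ A', coord n x = 0)
    (hε : ∀ n ∈ A, ‖ε n‖ = 1) (hη : ∀ n ∈ A', ‖η n‖ = 1) :
    ‖x + ∑ n ∈ A, ε n • vec n‖ = ‖x + ∑ n ∈ A', η n • vec n‖ :=
  le_antisymm (H.propA_le x A A' ε η h1 hc hd h0 hε hη)
    (H.propA_le x A' A η ε h1 hc.symm hd.symm (by rwa [union_comm]) hη hε)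

/-- partial sum projections are contractions -/
lemma norm_partial_le (x : X) (M : ℕ) : ‖∑ n ∈ range M, coord n x • vec n‖ ≤ ‖x‖ := by
  rw [H.norm_le_iff _ _ (norm_nonneg _)]
  intro B N
  refine le_trans ?_ (H.F_le_norm x B (min N M))
  have e : (fun j => coord j (∑ n ∈ range M, coord n x • vec n))
      = fun j => if j < M then coord j x else 0 := by
    funext j; rw [H.coord_sum]; simp
  rw [e]
  unfold F
  have t1 : ∑ b ∈ B, ‖(if b < M then coord b x else 0 : 𝕜)‖ ≤ ∑ b ∈ B, ‖coord b x‖ := by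
    refine sum_le_sum fun b _ => ?_
    split_ifs
    · exact le_rfl
    · simp
  have t2 : ∑ j ∈ range N \ B, ((w (B.card + j) : ℝ) : 𝕜) * (if j < M then coord j x else 0)
      = ∑ j ∈ range (min N M) \ B, ((w (B.card + j) : ℝ) : 𝕜) * coord j x := by
    symm
    apply sum_subset_zero_on_sdiff
    · intro j hj
      simp only [Finset.mem_sdiff, mem_range, lt_min_iff] at hj ⊢
      exact ⟨hj.1.1, hj.2⟩
    · intro j hj
      simp only [Finset.mem_sdiff, mem_range, lt_min_iff, not_and, not_not] at hj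
      by_cases h : j < M
      · exact absurd (hj.2 ⟨hj.1.1, h⟩) hj.1.2
      · rw [if_neg h, mul_zero]
    · intro j hj
      simp only [Finset.mem_sdiff, mem_range, lt_min_iff] at hj
      rw [if_pos hj.1.2]
  rw [t2]
  have := c_nonneg B.card
  gcongr

/-- the vectors form a Schauder basis -/
lemma schauder (x : X) :
    Tendsto (fun M => ∑ n ∈ range M, coord n x • vec n) atTop (𝓝 x) := by
  have hspan : ∀ y ∈ Submodule.span 𝕜 (Set.range vec),
      ∃ M0, ∀ M ≥ M0, ∑ n ∈ range M, coord n y • vec n = y := by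
    intro y hy
    induction hy using Submodule.span_induction with
    | mem y h =>
      obtain ⟨k, rfl⟩ := h
      refine ⟨k + 1, fun M hM => ?_⟩
      rw [sum_eq_single k]
      · rw [H.biorth]; simp
      · intro b _ hb; rw [H.biorth, if_neg hb, zero_smul]
      · intro h; exact absurd (mem_range.2 (by omega)) h
    | zero => exact ⟨0, fun M _ => by simp⟩
    | add a b _ _ ha hb =>
      obtain ⟨M1, h1⟩ := ha
      obtain ⟨M2, h2⟩ := hb
      refine ⟨max M1 M2, fun M hM => ?_⟩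
      have e1 := h1 M (le_trans (le_max_left _ _) hM)
      have e2 := h2 M (le_trans (le_max_right _ _) hM)
      simp only [map_add, add_smul, sum_add_distrib]
      rw [e1, e2]
    | smul r a _ ha =>
      obtain ⟨M1, h1⟩ := ha
      refine ⟨M1, fun M hM => ?_⟩
      have e1 := h1 M hM
      simp only [map_smul, smul_assoc, ← smul_sum]
      rw [e1]
  rw [Metric.tendsto_atTop]
  intro ε hε
  obtain ⟨y, hy, hxy⟩ := H.near x (ε / 2) (by positivity)
  obtain ⟨M0, hM0⟩ := hspan y hy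
  refine ⟨M0, fun M hM => ?_⟩
  rw [dist_eq_norm]
  have e : ∑ n ∈ range M, coord n x • vec n - x
      = ∑ n ∈ range M, coord n (x - y) • vec n - (x - y) := by
    simp only [map_sub, sub_smul, sum_sub_distrib]
    rw [hM0 M hM]; abel
  rw [e]
  calc _ ≤ ‖∑ n ∈ range M, coord n (x - y) • vec n‖ + ‖x - y‖ := norm_sub_le _ _
    _ ≤ ‖x - y‖ + ‖x - y‖ := by gcongr; exact H.norm_partial_le _ _
    _ < ε := by linarith

/-- the alternating test vectors have norm at most `3` -/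
lemma norm_test_le (K : ℕ) :
    ‖∑ n ∈ range K, (((-1 : ℝ) ^ n * (Real.sqrt (n + 1 : ℕ))⁻¹ : ℝ) : 𝕜) • vec n‖ ≤ 3 := by
  rw [H.norm_le_iff _ _ (by norm_num)]
  intro B N
  set a : ℕ → ℝ := fun n => (Real.sqrt (n + 1 : ℕ))⁻¹ with ha
  have ha0 : ∀ n, 0 ≤ a n := fun n => by simp only [ha]; positivity
  have haanti : Antitone a := by
    intro i j hij
    simp only [ha]
    exact inv_anti₀ (Real.sqrt_pos.2 (by positivity))
      (Real.sqrt_le_sqrt (by exact_mod_cast Nat.succ_le_succ hij))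
  set z : ℕ → 𝕜 := fun j => coord j (∑ n ∈ range K, (((-1 : ℝ) ^ n * a n : ℝ) : 𝕜) • vec n) with hz
  have ez : ∀ j, z j = if j < K then (((-1 : ℝ) ^ j * a j : ℝ) : 𝕜) else 0 := by
    intro j; rw [hz]; simp only [H.coord_sum, mem_range]
  have hzn : ∀ j, ‖z j‖ ≤ a j := by
    intro j; rw [ez]
    split_ifs
    · rw [RCLike.norm_ofReal, abs_mul, abs_pow, abs_neg, abs_one, one_pow, one_mul,
        abs_of_nonneg (ha0 j)]
    · simpa using ha0 j
  -- `∑_{i<n} a i ≤ 2 √n`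
  have hsum : ∀ n : ℕ, ∑ i ∈ range n, a i ≤ 2 * Real.sqrt (n : ℕ) := by
    intro n
    have h1 : ∀ i, a i ≤ 2 * w (0 + i) := by
      intro i
      rw [zero_add, w_eq]
      simp only [ha]
      have h2 : 0 < Real.sqrt (i + 1 : ℕ) := Real.sqrt_pos.2 (by positivity)
      have h3 : Real.sqrt (i : ℕ) ≤ Real.sqrt (i + 1 : ℕ) :=
        Real.sqrt_le_sqrt (by exact_mod_cast Nat.le_succ i)
      have h4 : 0 ≤ Real.sqrt (i : ℕ) := Real.sqrt_nonneg _
      rw [inv_eq_one_div, mul_one_div, div_le_div_iff₀ h2 (by linarith)]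
      linarith
    calc ∑ i ∈ range n, a i ≤ ∑ i ∈ range n, 2 * w (0 + i) := sum_le_sum fun i _ => h1 i
      _ = 2 * Real.sqrt (n : ℕ) := by
          rw [← mul_sum, sum_w]; simp
  set n := B.card with hn
  -- symmetric part
  have p1 : c n * ∑ b ∈ B, ‖z b‖ ≤ 2 := by
    have h1 : ∑ b ∈ B, ‖z b‖ ≤ 2 * Real.sqrt (n : ℕ) :=
      (sum_le_sum fun b _ => hzn b).trans ((sum_le_sum_range haanti B).trans (hsum _))
    calc c n * ∑ b ∈ B, ‖z b‖ ≤ c n * (2 * Real.sqrt (n : ℕ)) :=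
          mul_le_mul_of_nonneg_left h1 (c_nonneg n)
      _ ≤ 2 := by
          unfold c
          rcases Nat.eq_zero_or_pos n with h0 | h0
          · rw [h0]; simp
          · have h2 : 0 < Real.sqrt (n : ℕ) := Real.sqrt_pos.2 (by exact_mod_cast h0)
            rw [inv_mul_eq_div, mul_div_assoc, div_self h2.ne']; norm_num
  -- conditional part
  have hw : ∀ k, ‖((w (n + k) : ℝ) : 𝕜) * z k‖ ≤ w (n + k) * a k := by
    intro k
    rw [norm_w_mul]
    exact mul_le_mul_of_nonneg_left (hzn k) (w_pos _).le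
  have p2 : ‖∑ j ∈ range N \ B, ((w (n + j) : ℝ) : 𝕜) * z j‖ ≤ 2 := by
    have e1 : ∑ j ∈ range N \ B, ((w (n + j) : ℝ) : 𝕜) * z j
        = ∑ j ∈ range N, ((w (n + j) : ℝ) : 𝕜) * z j
          - ∑ j ∈ range N ∩ B, ((w (n + j) : ℝ) : 𝕜) * z j := by
      rw [eq_sub_iff_add_eq, ← sum_union]
      · congr 1
        ext j; simp only [mem_union, Finset.mem_sdiff, mem_inter]; tauto
      · rw [disjoint_left]; intro j h1 h2
        simp only [Finset.mem_sdiff, mem_inter] at h1 h2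
        exact h1.2 h2.2
    have e2 : ∑ j ∈ range N, ((w (n + j) : ℝ) : 𝕜) * z j
        = ((∑ j ∈ range (min N K), (-1 : ℝ) ^ j * (w (n + j) * a j) : ℝ) : 𝕜) := by
      rw [RCLike.ofReal_sum]
      symm
      apply sum_subset_zero_on_sdiff
      · intro j hj
        simp only [mem_range, lt_min_iff] at hj ⊢
        exact hj.1
      · intro j hj
        simp only [Finset.mem_sdiff, mem_range, lt_min_iff, not_and] at hj
        rw [ez, if_neg (hj.2 hj.1), mul_zero]
      · intro j hj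
        simp only [mem_range, lt_min_iff] at hj
        rw [ez, if_pos hj.2]
        push_cast; ring
    have e3 := alt_sum_bounds (min N K) (fun j => w (n + j) * a j)
      (fun i j hij => mul_le_mul (w_anti (by omega)) (haanti hij) (ha0 j) (w_pos _).le)
      (fun j => mul_nonneg (w_pos _).le (ha0 j))
    have e4 : w (n + 0) * a 0 ≤ 1 := by
      have h1 : a 0 = 1 := by simp [ha]
      have h2 : w 0 = 1 := by simp [w]
      have h3 := w_anti (Nat.zero_le (n + 0))
      rw [h1, mul_one]; linarith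
    have e5 : ‖∑ j ∈ range N, ((w (n + j) : ℝ) : 𝕜) * z j‖ ≤ 1 := by
      rw [e2, RCLike.norm_ofReal, abs_of_nonneg e3.1]
      exact e3.2.trans e4
    have e6 : ‖∑ j ∈ range N ∩ B, ((w (n + j) : ℝ) : 𝕜) * z j‖ ≤ 1 := by
      have q1 : ‖∑ j ∈ range N ∩ B, ((w (n + j) : ℝ) : 𝕜) * z j‖ ≤ ∑ j ∈ B, w n * a j := by
        refine (norm_sum_le _ _).trans ?_
        have : ∑ j ∈ range N ∩ B, ‖((w (n + j) : ℝ) : 𝕜) * z j‖ ≤ ∑ j ∈ range N ∩ B, w n * a j :=
          sum_le_sum fun j _ => (hw j).trans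
            (mul_le_mul_of_nonneg_right (w_anti (by omega)) (ha0 j))
        exact this.trans (sum_le_sum_of_subset_of_nonneg inter_subset_right
          fun j _ _ => mul_nonneg (w_pos _).le (ha0 j))
      rw [← mul_sum] at q1
      have q2 : ∑ j ∈ B, a j ≤ 2 * Real.sqrt (n : ℕ) := (sum_le_sum_range haanti B).trans (hsum _)
      have q3 : w n * ∑ j ∈ B, a j ≤ w n * (2 * Real.sqrt (n : ℕ)) :=
        mul_le_mul_of_nonneg_left q2 (w_pos _).le
      have q4 : w n * (2 * Real.sqrt (n : ℕ)) ≤ 1 := by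
        rw [w_eq]
        have h2 : 0 < Real.sqrt (n + 1 : ℕ) := Real.sqrt_pos.2 (by positivity)
        have h3 : Real.sqrt (n : ℕ) ≤ Real.sqrt (n + 1 : ℕ) :=
          Real.sqrt_le_sqrt (by exact_mod_cast Nat.le_succ n)
        have h4 : 0 ≤ Real.sqrt (n : ℕ) := Real.sqrt_nonneg _
        rw [one_div_mul_eq_div, div_le_one (by linarith)]
        linarith
      linarith
    rw [e1]
    calc _ ≤ ‖∑ j ∈ range N, ((w (n + j) : ℝ) : 𝕜) * z j‖
          + ‖∑ j ∈ range N ∩ B, ((w (n + j) : ℝ) : 𝕜) * z j‖ := norm_sub_le _ _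
      _ ≤ 2 := by linarith
  unfold F
  rw [← hn]
  linarith

/-- the even part of the test vectors is unbounded -/
lemma le_norm_even (M : ℕ) : (1 / 8) * ∑ k ∈ range M, (1 / ((k : ℝ) + 1)) ≤
    ‖∑ n ∈ (range M).image (fun k => 2 * k), coord n (∑ n ∈ range (2 * M),
      (((-1 : ℝ) ^ n * (Real.sqrt (n + 1 : ℕ))⁻¹ : ℝ) : 𝕜) • vec n) • vec n‖ := by
  classical
  set y : X := ∑ n ∈ range (2 * M), (((-1 : ℝ) ^ n * (Real.sqrt (n + 1 : ℕ))⁻¹ : ℝ) : 𝕜) • vec n
    with hy
  refine le_trans ?_ (H.F_le_norm _ ∅ (2 * M))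
  unfold F
  simp only [card_empty, sum_empty, mul_zero, zero_add, sdiff_empty]
  have e : ∀ j, coord j (∑ n ∈ (range M).image (fun k => 2 * k), coord n y • vec n)
      = if j ∈ (range M).image (fun k => 2 * k) then (((Real.sqrt (j + 1 : ℕ))⁻¹ : ℝ) : 𝕜)
        else 0 := by
    intro j
    rw [H.coord_sum]
    split_ifs with h
    · rw [hy, H.coord_sum]
      obtain ⟨k, hk, rfl⟩ := mem_image.1 h
      have hk' := mem_range.1 hk
      rw [if_pos (mem_range.2 (by omega))]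
      rw [pow_mul]; norm_num
    · rfl
  simp only [e, mul_ite, mul_zero]
  have e2 : ∑ j ∈ range (2 * M), (if j ∈ (range M).image (fun k => 2 * k) then
      ((w j : ℝ) : 𝕜) * (((Real.sqrt (j + 1 : ℕ))⁻¹ : ℝ) : 𝕜) else 0)
      = ((∑ k ∈ range M, w (2 * k) * (Real.sqrt (2 * k + 1 : ℕ))⁻¹ : ℝ) : 𝕜) := by
    rw [← sum_filter]
    have e3 : (range (2 * M)).filter (fun j => j ∈ (range M).image (fun k => 2 * k))
        = (range M).image (fun k => 2 * k) := by
      ext j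
      simp only [mem_filter, mem_range, mem_image]
      constructor
      · exact fun h => h.2
      · intro h
        refine ⟨?_, h⟩
        obtain ⟨k, hk, rfl⟩ := h
        omega
    rw [e3, sum_image (fun a _ b _ h => by simpa using h), RCLike.ofReal_sum]
    refine sum_congr rfl fun k _ => ?_
    push_cast; rfl
  rw [e2, RCLike.norm_ofReal]
  have e5 : ∀ k : ℕ, (1 / 4) * (1 / ((k : ℝ) + 1)) ≤ w (2 * k) * (Real.sqrt (2 * k + 1 : ℕ))⁻¹ := by
    intro k
    rw [w_eq]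
    have h2 : 0 < Real.sqrt (2 * k + 1 : ℕ) := Real.sqrt_pos.2 (by positivity)
    have h3 : Real.sqrt (2 * k : ℕ) ≤ Real.sqrt (2 * k + 1 : ℕ) :=
      Real.sqrt_le_sqrt (by exact_mod_cast Nat.le_succ _)
    have h4 : 0 ≤ Real.sqrt (2 * k : ℕ) := Real.sqrt_nonneg _
    have h5 : Real.sqrt (2 * k + 1 : ℕ) * Real.sqrt (2 * k + 1 : ℕ) = (2 * k + 1 : ℕ) :=
      Real.mul_self_sqrt (by positivity)
    have h6 : ((2 * k + 1 : ℕ) : ℝ) = 2 * k + 1 := by push_cast; ring
    rw [inv_eq_one_div, div_mul_div_comm, one_mul, div_mul_div_comm]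
    rw [div_le_div_iff₀ (by positivity) (by positivity)]
    have h5' := h5.trans h6
    have h7 : (Real.sqrt (2 * k + 1 : ℕ) + Real.sqrt (2 * k : ℕ)) * Real.sqrt (2 * k + 1 : ℕ)
        ≤ 2 * (2 * k + 1) := by
      nlinarith
    nlinarith
  have e6 : (1 / 4) * ∑ k ∈ range M, (1 / ((k : ℝ) + 1))
      ≤ ∑ k ∈ range M, w (2 * k) * (Real.sqrt (2 * k + 1 : ℕ))⁻¹ := by
    rw [mul_sum]
    exact sum_le_sum fun k _ => e5 k
  have e7 := le_abs_self (∑ k ∈ range M, w (2 * k) * (Real.sqrt (2 * k + 1 : ℕ))⁻¹)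
  linarith

/-- The basis is not unconditional. -/
lemma not_unconditional [CompleteSpace X] :
    ∃ x : X, ¬ HasSum (fun n => coord n x • vec n) x := by
  classical
  by_contra hcon
  push Not at hcon
  let P : Finset ℕ → (X →L[𝕜] X) := fun E => ∑ n ∈ E, (coord n).smulRight (vec n)
  have hP : ∀ E x, P E x = ∑ n ∈ E, coord n x • vec n := by
    intro E x
    simp [P]
  have hb : ∀ x, ∃ C, ∀ E, ‖P E x‖ ≤ C := by
    intro x
    have hs : Summable (fun n => coord n x • vec n) := (hcon x).summable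
    obtain ⟨s, hs⟩ := summable_iff_vanishing_norm.1 hs 1 one_pos
    refine ⟨∑ n ∈ s, ‖coord n x • vec n‖ + 1, fun E => ?_⟩
    rw [hP]
    have e1 : ∑ n ∈ E, coord n x • vec n
        = ∑ n ∈ E ∩ s, coord n x • vec n + ∑ n ∈ E \ s, coord n x • vec n := by
      rw [← sum_union]
      · congr 1
        ext j; simp only [mem_union, Finset.mem_sdiff, mem_inter]; tauto
      · rw [disjoint_left]; intro j h1 h2
        simp only [Finset.mem_sdiff, mem_inter] at h1 h2
        exact h2.2 h1.2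
    rw [e1]
    have e2 : ‖∑ n ∈ E ∩ s, coord n x • vec n‖ ≤ ∑ n ∈ s, ‖coord n x • vec n‖ :=
      (norm_sum_le _ _).trans (sum_le_sum_of_subset_of_nonneg inter_subset_right
        fun _ _ _ => norm_nonneg _)
    have e3 : ‖∑ n ∈ E \ s, coord n x • vec n‖ < 1 := hs _ sdiff_disjoint
    exact (norm_add_le _ _).trans (by linarith)
  obtain ⟨C, hC⟩ := banach_steinhaus hb
  have hdiv := Real.tendsto_sum_range_one_div_nat_succ_atTop
  obtain ⟨M, hM⟩ := (hdiv.eventually (eventually_gt_atTop (24 * C))).exists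
  have h1 := H.le_norm_even M
  have h2 := H.norm_test_le (2 * M)
  rw [← hP] at h1
  have h3 := (P ((range M).image (fun k => 2 * k))).le_opNorm
    (∑ n ∈ range (2 * M), (((-1 : ℝ) ^ n * (Real.sqrt (n + 1 : ℕ))⁻¹ : ℝ) : 𝕜) • vec n)
  have h4 := hC ((range M).image (fun k => 2 * k))
  have h5 : ‖P ((range M).image (fun k => 2 * k))‖ *
      ‖∑ n ∈ range (2 * M), (((-1 : ℝ) ^ n * (Real.sqrt (n + 1 : ℕ))⁻¹ : ℝ) : 𝕜) • vec n‖
      ≤ C * 3 := by
    have := norm_nonneg (P ((range M).image (fun k => 2 * k)))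
    exact mul_le_mul h4 h2 (norm_nonneg _) (this.trans h4)
  linarith

end Good

end Pool.Agent.N633.PA
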