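import Mathlib
import Pool.Agent.N633.PA.Abs

/-!
# The Banach space
-/

open Finset Filter Topology
open scoped ENNReal

namespace Pool.Agent.N633.PA

variable (𝕜 : Type) [RCLike 𝕜]

/-- index set of the norming functionals -/
abbrev Idx : Type := Finset ℕ × ℕ × {u : ℕ → 𝕜 // ∀ n, ‖u n‖ ≤ 1}

variable {𝕜}

/-- coefficients of the functional with index `i` -/
noncomputable def κ (i : Idx 𝕜) (j : ℕ) : 𝕜 :=
  if j ∈ i.1 then ((c i.1.card : ℝ) : 𝕜) * i.2.2.1 j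
  else if j < i.2.1 then ((1 / 2 * w (i.1.card + j) : ℝ) : 𝕜) else 0

/-- the functional with index `i` on sequences -/
noncomputable def fn (i : Idx 𝕜) (z : ℕ → 𝕜) : 𝕜 := ∑ j ∈ i.1 ∪ range i.2.1, κ i j * z j

lemma c_le_one (n : ℕ) : c n ≤ 1 := by
  unfold c
  rcases Nat.eq_zero_or_pos n with rfl | hn
  · simp
  · have : 1 ≤ Real.sqrt (n : ℕ) := by
      rw [show (1:ℝ) = Real.sqrt 1 by simp]
      exact Real.sqrt_le_sqrt (by exact_mod_cast hn)
    exact inv_le_one_of_one_le₀ this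

lemma w_le_one (n : ℕ) : w n ≤ 1 := by
  have h := w_anti (Nat.zero_le n)
  have : w 0 = 1 := by simp [w]
  linarith

lemma norm_κ_le (i : Idx 𝕜) (j : ℕ) : ‖κ i j‖ ≤ 1 := by
  unfold κ
  split_ifs with h1 h2
  · rw [norm_mul, RCLike.norm_ofReal, abs_of_nonneg (c_nonneg _)]
    have := i.2.2.2 j
    have h3 := c_le_one i.1.card
    have h4 := c_nonneg i.1.card
    have h5 := norm_nonneg (i.2.2.1 j)
    nlinarith
  · rw [RCLike.norm_ofReal, abs_of_nonneg (by have := w_pos (i.1.card + j); positivity)]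
    have := w_le_one (i.1.card + j)
    linarith
  · simp

lemma fn_eq (i : Idx 𝕜) (z : ℕ → 𝕜) : fn i z =
    ((c i.1.card : ℝ) : 𝕜) * ∑ b ∈ i.1, i.2.2.1 b * z b
    + ((1 / 2 : ℝ) : 𝕜) * ∑ j ∈ range i.2.1 \ i.1, ((w (i.1.card + j) : ℝ) : 𝕜) * z j := by
  unfold fn
  rw [← union_sdiff_self_eq_union, sum_union disjoint_sdiff, mul_sum, mul_sum]
  congr 1
  · refine sum_congr rfl fun j hj => ?_
    simp only [κ, hj, if_true]; ring
  · refine sum_congr rfl fun j hj => ?_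
    have hj' := mem_sdiff.1 hj
    have hj1 := mem_range.1 hj'.1
    simp only [κ, hj'.2, hj1, if_true, if_false]
    push_cast; ring

lemma norm_fn_le (i : Idx 𝕜) (z : ℕ → 𝕜) : ‖fn i z‖ ≤ F i.1 i.2.1 z := by
  rw [fn_eq]
  refine (norm_add_le _ _).trans ?_
  unfold F
  rw [norm_mul, norm_mul, RCLike.norm_ofReal, RCLike.norm_ofReal, abs_of_nonneg (c_nonneg _),
    abs_of_pos (by norm_num : (0:ℝ) < 1 / 2)]
  gcongr
  · exact c_nonneg _
  · refine (norm_sum_le _ _).trans (sum_le_sum fun b _ => ?_)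
    rw [norm_mul]
    have := i.2.2.2 b
    have h5 := norm_nonneg (z b)
    nlinarith

lemma exists_fn_eq (B : Finset ℕ) (N : ℕ) (z : ℕ → 𝕜) : ∃ u : {u : ℕ → 𝕜 // ∀ n, ‖u n‖ ≤ 1},
    ‖fn (B, N, u) z‖ = F B N z := by
  set S : 𝕜 := ∑ j ∈ range N \ B, ((w (B.card + j) : ℝ) : 𝕜) * z j with hS
  obtain ⟨θ, hθ, hSθ⟩ : ∃ θ : 𝕜, ‖θ‖ = 1 ∧ S = θ * (‖S‖ : ℝ) := by
    by_cases h : S = 0
    · exact ⟨1, by simp, by simp [h]⟩
    · have h0 : (‖S‖ : ℝ) ≠ 0 := norm_ne_zero_iff.2 h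
      have h0' : ((‖S‖ : ℝ) : 𝕜) ≠ 0 := by exact_mod_cast h0
      refine ⟨S / (‖S‖ : ℝ), ?_, ?_⟩
      · rw [norm_div, RCLike.norm_ofReal, abs_norm, div_self h0]
      · rw [div_mul_cancel₀ _ h0']
  have hu : ∀ n, ‖θ * ((starRingEnd 𝕜) (z n) / (‖z n‖ : ℝ))‖ ≤ 1 := by
    intro n
    rw [norm_mul, hθ, one_mul, norm_div, RCLike.norm_conj, RCLike.norm_ofReal, abs_norm]
    exact div_self_le_one _
  refine ⟨⟨fun n => θ * ((starRingEnd 𝕜) (z n) / (‖z n‖ : ℝ)), hu⟩, ?_⟩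
  rw [fn_eq]
  have h1 : ∀ b, θ * ((starRingEnd 𝕜) (z b) / ((‖z b‖ : ℝ) : 𝕜)) * z b = θ * ((‖z b‖ : ℝ) : 𝕜) := by
    intro b
    by_cases h : z b = 0
    · simp [h]
    · have h0' : ((‖z b‖ : ℝ) : 𝕜) ≠ 0 := by exact_mod_cast (norm_ne_zero_iff.2 h)
      have h2 : (starRingEnd 𝕜) (z b) * z b = ((‖z b‖ : ℝ) : 𝕜) ^ 2 := RCLike.conj_mul (z b)
      field_simp
      rw [mul_assoc, h2]
  simp only [h1]
  rw [← hS, hSθ, ← mul_sum]
  have h3 : ((c B.card : ℝ) : 𝕜) * (θ * ∑ b ∈ B, ((‖z b‖ : ℝ) : 𝕜))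
      + ((1 / 2 : ℝ) : 𝕜) * (θ * ((‖S‖ : ℝ) : 𝕜))
      = θ * ((F B N z : ℝ) : 𝕜) := by
    unfold F; push_cast; ring
  rw [h3, norm_mul, hθ, one_mul, RCLike.norm_ofReal, abs_of_nonneg (F_nonneg _ _ _)]

variable (𝕜)

/-- the ambient space of bounded functions on the index set -/
abbrev Amb : Type := lp (fun _ : Idx 𝕜 => 𝕜) ∞

variable {𝕜}

lemma memℓp_κ (j : ℕ) : Memℓp (fun i : Idx 𝕜 => κ i j) ∞ := by
  rw [memℓp_infty_iff]
  exact ⟨1, by rintro _ ⟨i, rfl⟩; exact norm_κ_le i j⟩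

/-- the basis vectors in the ambient space -/
noncomputable def vec0 (j : ℕ) : Amb 𝕜 := ⟨fun i => κ i j, memℓp_κ j⟩

@[simp] lemma vec0_apply (j : ℕ) (i : Idx 𝕜) : (vec0 j : Amb 𝕜) i = κ i j := rfl

/-- evaluation at an index -/
noncomputable def ev (i : Idx 𝕜) : Amb 𝕜 →L[𝕜] 𝕜 :=
  LinearMap.mkContinuous
    { toFun := fun x => x i
      map_add' := fun x y => by simp
      map_smul' := fun a x => by simp } 1 (fun x => by
        rw [one_mul]
        exact lp.norm_apply_le_norm ENNReal.top_ne_zero x i)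

@[simp] lemma ev_apply (i : Idx 𝕜) (x : Amb 𝕜) : ev i x = x i := rfl

/-- the index of the `j`-th coordinate -/
def cidx (j : ℕ) : Idx 𝕜 := ({j}, 0, ⟨fun _ => 1, fun _ => by simp⟩)

lemma κ_cidx (j k : ℕ) : κ (cidx j : Idx 𝕜) k = if j = k then 1 else 0 := by
  unfold κ cidx
  by_cases h : j = k
  · subst h; simp [c]
  · have h' : ¬ k = j := fun e => h e.symm
    simp [h, h']

variable (𝕜)

/-- the closed span of the vectors -/
noncomputable def XS : Submodule 𝕜 (Amb 𝕜) :=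
  (Submodule.span 𝕜 (Set.range (vec0 : ℕ → Amb 𝕜))).topologicalClosure

variable {𝕜}

lemma mem_rel {x : Amb 𝕜} (hx : x ∈ XS 𝕜) (i : Idx 𝕜) : x i = fn i (fun j => x (cidx j)) := by
  let T : Amb 𝕜 →L[𝕜] 𝕜 := ev i - ∑ j ∈ i.1 ∪ range i.2.1, (κ i j) • ev (cidx j)
  have hT : ∀ y : Amb 𝕜, T y = y i - fn i (fun j => y (cidx j)) := by
    intro y
    simp [T, fn]
  have hle : XS 𝕜 ≤ LinearMap.ker (T : Amb 𝕜 →ₗ[𝕜] 𝕜) := by
    apply Submodule.topologicalClosure_minimal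
    · rw [Submodule.span_le]
      rintro _ ⟨k, rfl⟩
      simp only [SetLike.mem_coe, LinearMap.mem_ker, ContinuousLinearMap.coe_coe]
      rw [hT]
      simp only [vec0_apply, κ_cidx, fn]
      by_cases hk : k ∈ i.1 ∪ range i.2.1
      · rw [sum_eq_single k]
        · simp
        · intro b _ hb; simp [hb]
        · intro h; exact absurd hk h
      · rw [sum_eq_zero]
        · rw [mem_union, mem_range, not_or] at hk
          simp [κ, hk.1, hk.2]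
        · intro b hb
          have : b ≠ k := fun e => hk (e ▸ hb)
          simp [this]
    · exact T.isClosed_ker
  have := hle hx
  simp only [LinearMap.mem_ker, ContinuousLinearMap.coe_coe] at this
  rw [hT] at this
  exact sub_eq_zero.1 this

/-- coordinates -/
noncomputable def coordX (j : ℕ) : XS 𝕜 →L[𝕜] 𝕜 := (ev (cidx j)).comp (XS 𝕜).subtypeL

/-- basis vectors -/
noncomputable def vecX (j : ℕ) : XS 𝕜 :=
  ⟨vec0 j, Submodule.le_topologicalClosure _ (Submodule.subset_span ⟨j, rfl⟩)⟩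

lemma coordX_apply (j : ℕ) (x : XS 𝕜) : coordX j x = (x : Amb 𝕜) (cidx j) := rfl

lemma coordX_vecX (n j : ℕ) : coordX n (vecX j : XS 𝕜) = if n = j then 1 else 0 := by
  rw [coordX_apply]
  simp only [vecX, vec0_apply]
  exact κ_cidx n j

lemma apply_eq (x : XS 𝕜) (i : Idx 𝕜) : (x : Amb 𝕜) i = fn i (fun j => coordX j x) :=
  mem_rel x.2 i

lemma norm_le_iff (x : XS 𝕜) {M : ℝ} (hM : 0 ≤ M) :
    ‖x‖ ≤ M ↔ ∀ B N, F B N (fun j => coordX j x) ≤ M := by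
  constructor
  · intro h B N
    obtain ⟨u, hu⟩ := exists_fn_eq B N (fun j => coordX j x)
    rw [← hu, ← apply_eq]
    exact (lp.norm_apply_le_norm ENNReal.top_ne_zero (x : Amb 𝕜) _).trans h
  · intro h
    have : ‖(x : Amb 𝕜)‖ ≤ M := by
      refine lp.norm_le_of_forall_le hM fun i => ?_
      rw [apply_eq]
      exact (norm_fn_le _ _).trans (h _ _)
    exact this

lemma span_map : (Submodule.span 𝕜 (Set.range (vecX : ℕ → XS 𝕜))).map (XS 𝕜).subtype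
    = Submodule.span 𝕜 (Set.range (vec0 : ℕ → Amb 𝕜)) := by
  rw [Submodule.map_span]
  congr 1
  ext y
  constructor
  · rintro ⟨_, ⟨k, rfl⟩, rfl⟩; exact ⟨k, rfl⟩
  · rintro ⟨k, rfl⟩; exact ⟨vecX k, ⟨k, rfl⟩, rfl⟩

lemma exists_span_near (x : XS 𝕜) {ε : ℝ} (hε : 0 < ε) :
    ∃ y ∈ Submodule.span 𝕜 (Set.range (vecX : ℕ → XS 𝕜)), ‖x - y‖ < ε := by
  have hx : (x : Amb 𝕜) ∈ closure (Submodule.span 𝕜 (Set.range (vec0 : ℕ → Amb 𝕜)) : Set (Amb 𝕜)) :=
    x.2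
  rw [Metric.mem_closure_iff] at hx
  obtain ⟨y, hy, hd⟩ := hx ε hε
  rw [SetLike.mem_coe, ← span_map] at hy
  obtain ⟨y', hy', rfl⟩ := hy
  refine ⟨y', hy', ?_⟩
  rw [dist_eq_norm] at hd
  exact hd

lemma norm_vecX (n : ℕ) : ‖(vecX n : XS 𝕜)‖ = 1 := by
  apply le_antisymm
  · have : ‖((vecX n : XS 𝕜) : Amb 𝕜)‖ ≤ 1 :=
      lp.norm_le_of_forall_le zero_le_one fun i => norm_κ_le i n
    exact this
  · have h := lp.norm_apply_le_norm ENNReal.top_ne_zero ((vecX n : XS 𝕜) : Amb 𝕜) (cidx n)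
    have h2 : ((vecX n : XS 𝕜) : Amb 𝕜) (cidx n) = 1 := by
      have := coordX_vecX (𝕜 := 𝕜) n n
      simpa [coordX_apply] using this
    rw [h2, norm_one] at h
    exact h

lemma norm_coordX_le (n : ℕ) : ‖(coordX n : XS 𝕜 →L[𝕜] 𝕜)‖ ≤ 1 := by
  refine ContinuousLinearMap.opNorm_le_bound _ zero_le_one fun x => ?_
  rw [coordX_apply, one_mul]
  exact lp.norm_apply_le_norm ENNReal.top_ne_zero (x : Amb 𝕜) (cidx n)


lemma goodX : Good (vecX : ℕ → XS 𝕜) coordX where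
  biorth := coordX_vecX
  norm_le_iff := fun x _ hM => norm_le_iff x hM
  near := fun x _ hε => exists_span_near x hε

instance : CompleteSpace (XS 𝕜) := by
  unfold XS
  infer_instance

variable (𝕜)

/-- The main existence statement. -/
theorem exists_space : ∃ (X : Type) (_ : NormedAddCommGroup X) (_ : NormedSpace 𝕜 X)
    (_ : CompleteSpace X) (vec : ℕ → X) (coord : ℕ → X →L[𝕜] 𝕜),
    Good vec coord ∧ (∀ n, ‖vec n‖ = 1) ∧ (∀ n, ‖coord n‖ ≤ 1) :=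
  ⟨XS 𝕜, inferInstance, inferInstance, inferInstance, vecX, coordX, goodX, norm_vecX,
    norm_coordX_le⟩

end Pool.Agent.N633.PA
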